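import Pool.Agent.Helper859.VG.Main
import Pool.Agent.Y180.VM.Fb
import Pool.Agent.Y180.VM.Bl

set_option autoImplicit false
open Finset Filter Topology MeasureTheory

namespace Pool.Agent.Results.MP_dea278_an.FiniteAtoms

/-- Inner function: a bounded analytic function on the open unit disc whose radial boundary values exist and
have modulus `1` almost everywhere. -/
def IsInner (I : ℂ → ℂ) : Prop :=
  DifferentiableOn ℂ I (Metric.ball 0 1) ∧ (∃ M : ℝ, ∀ z ∈ Metric.ball (0 : ℂ) 1, ‖I z‖ ≤ M) ∧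
    ∀ᵐ θ : ℝ ∂volume, ∃ w : ℂ, ‖w‖ = 1 ∧
      Tendsto (fun r : ℝ => I ((r : ℂ) * Complex.exp ((θ : ℂ) * Complex.I))) (𝓝[<] 1) (𝓝 w)

/-- Fourier coefficients (over `ℤ`) of the boundary distribution of an analytic function on the disc: the Taylor
coefficients for `n ≥ 0`, and `0` for `n < 0`. -/
noncomputable def coef (I : ℂ → ℂ) (n : ℤ) : ℂ :=
  if 0 ≤ n then iteratedDeriv n.toNat I 0 / (n.toNat.factorial : ℂ) else 0

/-- Convolution on `ℤ` of a sequence with the (finitely supported) coefficient sequence of a trigonometric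
polynomial. -/
noncomputable def conv (φ : ℤ → ℂ) (a : ℤ →₀ ℂ) (n : ℤ) : ℂ := ∑ m ∈ a.support, φ (n - m) * a m

/-- `I ∈ M_pA`: multiplication by the boundary distribution of `I`, i.e. convolution with its Fourier coefficients,
is bounded for the `ℓ^p(ℤ)` norm on trigonometric polynomials.  (`eLpNorm · p Measure.count` is the `ℓ^p(ℤ)` norm,
for every `1 ≤ p ≤ ∞`.) -/
def MemMpA (p : ENNReal) (I : ℂ → ℂ) : Prop :=
  ∃ K : NNReal, ∀ a : ℤ →₀ ℂ,
    eLpNorm (conv (coef I) a) p (Measure.count : Measure ℤ) ≤ K * eLpNorm (fun n : ℤ => a n) p (Measure.count : Measure ℤ)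

/-- `I` is (on the disc) a Blaschke product `c z^k ∏ (|a_i|/a_i) (a_i - z)/(1 - conj a_i z)`,
`|c| = 1`, `0 < |a_i| < 1`, `∑ (1 - |a_i|) < ∞` (finitely or infinitely many factors). -/
def IsBlaschkeProduct (I : ℂ → ℂ) : Prop :=
  ∃ (ι : Type) (a : ι → ℂ) (c : ℂ) (k : ℕ) (P : ℂ → ℂ), ‖c‖ = 1 ∧ (∀ i, 0 < ‖a i‖ ∧ ‖a i‖ < 1) ∧
    Summable (fun i => 1 - ‖a i‖) ∧
    (∀ z ∈ Metric.ball (0 : ℂ) 1,
      HasProd (fun i => ((‖a i‖ : ℂ) / a i) * ((a i - z) / (1 - (starRingEnd ℂ) (a i) * z))) (P z)) ∧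
    ∀ z ∈ Metric.ball (0 : ℂ) 1, I z = c * z ^ k * P z

open Pool.Agent.Y180.VM

/-- from finite sections to `ℓ^p` -/
lemma mem_of_fb {I : ℂ → ℂ} {p K : ℝ} (hp : 0 < p) (hK : 0 ≤ K) (h : FB (coef I) p K) :
    MemMpA (ENNReal.ofReal p) I := by
  refine ⟨K.toNNReal, fun a => ?_⟩
  have hp' : (ENNReal.ofReal p).toReal = p := ENNReal.toReal_ofReal hp.le
  have hp0 : ENNReal.ofReal p ≠ 0 := by
    rw [Ne, ENNReal.ofReal_eq_zero, not_le]
    exact hp
  rw [eLpNorm_eq_lintegral_rpow_enorm_toReal hp0 ENNReal.ofReal_ne_top,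
    eLpNorm_eq_lintegral_rpow_enorm_toReal hp0 ENNReal.ofReal_ne_top, lintegral_count, lintegral_count, hp']
  have hcast : ((K.toNNReal : NNReal) : ENNReal) = ENNReal.ofReal K := rfl
  rw [hcast]
  have e1 : ∀ x : ℂ, ‖x‖ₑ ^ p = ENNReal.ofReal (‖x‖ ^ p) := by
    intro x
    rw [← ofReal_norm, ENNReal.ofReal_rpow_of_nonneg (norm_nonneg x) hp.le]
  have e2 : ENNReal.ofReal K ^ p = ENNReal.ofReal (K ^ p) := ENNReal.ofReal_rpow_of_nonneg hK hp.le
  have key : ∑' n : ℤ, ‖conv (coef I) a n‖ₑ ^ p ≤ ENNReal.ofReal K ^ p * ∑' n : ℤ, ‖a n‖ₑ ^ p := by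
    rw [ENNReal.tsum_eq_iSup_sum]
    refine iSup_le fun s => ?_
    calc ∑ n ∈ s, ‖conv (coef I) a n‖ₑ ^ p = ENNReal.ofReal (∑ n ∈ s, ‖conv (coef I) a n‖ ^ p) := by
          rw [ENNReal.ofReal_sum_of_nonneg (fun _ _ => Real.rpow_nonneg (norm_nonneg _) _)]
          exact Finset.sum_congr rfl fun n _ => e1 _
      _ ≤ ENNReal.ofReal (K ^ p * ∑ m ∈ a.support, ‖a m‖ ^ p) := by
          refine ENNReal.ofReal_le_ofReal ?_
          have := h a.support s a
          have e : ∀ n, conv (coef I) a n = ∑ m ∈ a.support, a m * coef I (n - m) := fun n => by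
            unfold conv
            exact Finset.sum_congr rfl fun m _ => mul_comm _ _
          simp only [e]
          exact this
      _ = ENNReal.ofReal K ^ p * ∑ m ∈ a.support, ‖a m‖ₑ ^ p := by
          rw [ENNReal.ofReal_mul (Real.rpow_nonneg hK _),
            ENNReal.ofReal_sum_of_nonneg (fun _ _ => Real.rpow_nonneg (norm_nonneg _) _), e2]
          congr 1
          exact Finset.sum_congr rfl fun n _ => (e1 _).symm
      _ ≤ _ := by
          gcongr
          exact ENNReal.sum_le_tsum _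
  calc (∑' n : ℤ, ‖conv (coef I) a n‖ₑ ^ p) ^ (1 / p)
      ≤ (ENNReal.ofReal K ^ p * ∑' n : ℤ, ‖a n‖ₑ ^ p) ^ (1 / p) := by gcongr
    _ = ENNReal.ofReal K * (∑' n : ℤ, ‖a n‖ₑ ^ p) ^ (1 / p) := by
        rw [ENNReal.mul_rpow_of_nonneg _ _ (by positivity), ← ENNReal.rpow_mul, mul_one_div_cancel hp.ne',
          ENNReal.rpow_one]

lemma fb4 {φ : ℤ → ℂ} {K : ℝ} (h : ∀ (a : ℤ →₀ ℂ) (s : Finset ℤ),
    ∑ n ∈ s, ‖∑ m ∈ a.support, φ (n - m) * a m‖ ^ 4 ≤ K ^ 4 * ∑ m ∈ a.support, ‖a m‖ ^ 4) : FB φ 4 K := by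
  classical
  intro S S' a
  let f : ℤ →₀ ℂ := Finsupp.onFinset S (fun n => if n ∈ S then a n else 0)
    (fun n hn => by
      by_contra hc
      exact hn (if_neg hc))
  have hf : ∀ n ∈ S, f n = a n := fun n hn => if_pos hn
  have hsub : f.support ⊆ S := Finsupp.support_onFinset_subset
  have e1 : ∀ n, ∑ m ∈ f.support, φ (n - m) * f m = ∑ m ∈ S, a m * φ (n - m) := by
    intro n
    rw [Finset.sum_subset hsub (fun x _ hx => by rw [Finsupp.notMem_support_iff.1 hx, mul_zero])]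
    exact Finset.sum_congr rfl fun m hm => by rw [hf m hm, mul_comm]
  have e2 : ∑ m ∈ f.support, ‖f m‖ ^ 4 = ∑ m ∈ S, ‖a m‖ ^ 4 := by
    rw [Finset.sum_subset hsub (fun x _ hx => by rw [Finsupp.notMem_support_iff.1 hx]; simp)]
    exact Finset.sum_congr rfl fun m hm => by rw [hf m hm]
  have := h f S'
  simp only [e1, e2] at this
  have c : ∀ x : ℝ, x ^ (4 : ℝ) = x ^ 4 := fun x => by exact_mod_cast Real.rpow_natCast x 4
  simp only [c]
  exact this

/-! ### Inner functions -/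

lemma inner_one : IsInner (fun _ => 1) :=
  ⟨differentiableOn_const _, ⟨1, fun z _ => by simp⟩,
    Eventually.of_forall fun θ => ⟨1, by simp, tendsto_const_nhds⟩⟩

lemma inner_mul {I J : ℂ → ℂ} (hI : IsInner I) (hJ : IsInner J) : IsInner (fun z => I z * J z) := by
  obtain ⟨h1, ⟨M, hM⟩, h3⟩ := hI
  obtain ⟨g1, ⟨L, hL⟩, g3⟩ := hJ
  refine ⟨h1.mul g1, ⟨M * L, fun z hz => ?_⟩, ?_⟩
  · rw [norm_mul]
    exact mul_le_mul (hM z hz) (hL z hz) (norm_nonneg _) ((norm_nonneg _).trans (hM z hz))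
  · filter_upwards [h3, g3] with θ hθ hθ'
    obtain ⟨w, hw, hw'⟩ := hθ
    obtain ⟨v, hv, hv'⟩ := hθ'
    exact ⟨w * v, by rw [norm_mul, hw, hv, one_mul], hw'.mul hv'⟩

lemma ball_rot {u : ℂ} (hu : ‖u‖ = 1) : ∀ z ∈ Metric.ball (0 : ℂ) 1, u * z ∈ Metric.ball (0 : ℂ) 1 := by
  intro z hz
  rw [mem_ball_zero_iff] at hz ⊢
  rw [norm_mul, hu, one_mul]
  exact hz

lemma inner_rot {I : ℂ → ℂ} (hI : IsInner I) {u : ℂ} (hu : ‖u‖ = 1) : IsInner (fun z => I (u * z)) := by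
  obtain ⟨h1, ⟨M, hM⟩, h3⟩ := hI
  have hball := ball_rot hu
  refine ⟨h1.comp (by fun_prop) hball, ⟨M, fun z hz => hM _ (hball z hz)⟩, ?_⟩
  have h4 := (measurePreserving_add_right (volume : Measure ℝ) u.arg).quasiMeasurePreserving.ae h3
  filter_upwards [h4] with θ hθ
  obtain ⟨w, hw, hw'⟩ := hθ
  refine ⟨w, hw, hw'.congr fun r => ?_⟩
  congr 1
  have e : u = Complex.exp ((u.arg : ℂ) * Complex.I) := by
    have := Complex.norm_mul_exp_arg_mul_I u
    rw [hu] at this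
    simpa using this.symm
  have e2 : ((θ + u.arg : ℝ) : ℂ) * Complex.I = (u.arg : ℂ) * Complex.I + (θ : ℂ) * Complex.I := by
    push_cast
    ring
  rw [e2, Complex.exp_add, ← e]
  ring

lemma inner_exp1 {s : ℝ} (hs : 0 ≤ s) : IsInner (fun z => Complex.exp (-((s : ℂ) * ((1 + z) / (1 - z))))) := by
  refine ⟨?_, ⟨1, fun z hz => ?_⟩, ?_⟩
  · intro z hz
    have hz1 : z ≠ 1 := by
      rintro rfl
      rw [mem_ball_zero_iff, norm_one] at hz
      exact lt_irrefl _ hz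
    have : (1 : ℂ) - z ≠ 0 := sub_ne_zero.2 (Ne.symm hz1)
    apply DifferentiableAt.differentiableWithinAt
    fun_prop (disch := assumption)
  · rw [Complex.norm_exp, Complex.neg_re, Complex.re_ofReal_mul]
    apply Real.exp_le_one_iff.2
    have := mul_nonneg hs (VG.cay_re_nonneg (mem_ball_zero_iff.1 hz).le)
    linarith
  · filter_upwards [VG.ae_ne_one] with θ hθ
    have hn := Complex.norm_exp_ofReal_mul_I θ
    refine ⟨_, VG.norm_exp_cay s hn, ?_⟩
    have hne' : (1 : ℂ) - Complex.exp (θ * Complex.I) ≠ 0 := sub_ne_zero.2 (Ne.symm hθ)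
    have hc : ContinuousAt (fun z => Complex.exp (-((s : ℂ) * ((1 + z) / (1 - z)))))
        (Complex.exp (θ * Complex.I)) := by
      fun_prop (disch := assumption)
    have hpath : Tendsto (fun r : ℝ => (r : ℂ) * Complex.exp (θ * Complex.I)) (nhdsWithin (1 : ℝ) (Set.Iio 1))
        (𝓝 (Complex.exp (θ * Complex.I))) := by
      have : Continuous (fun r : ℝ => (r : ℂ) * Complex.exp (θ * Complex.I)) := by fun_prop
      have h12 := this.tendsto (1 : ℝ)
      simp only [Complex.ofReal_one, one_mul] at h12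
      exact h12.mono_left nhdsWithin_le_nhds
    exact hc.tendsto.comp hpath

lemma norm_exp1_le {s : ℝ} (hs : 0 ≤ s) {z : ℂ} (hz : z ∈ Metric.ball (0 : ℂ) 1) :
    ‖Complex.exp (-((s : ℂ) * ((1 + z) / (1 - z))))‖ ≤ 1 := by
  rw [Complex.norm_exp, Complex.neg_re, Complex.re_ofReal_mul]
  apply Real.exp_le_one_iff.2
  have := mul_nonneg hs (VG.cay_re_nonneg (mem_ball_zero_iff.1 hz).le)
  linarith

/-! ### Coefficients -/

lemma coef_neg (I : ℂ → ℂ) (n : ℤ) (hn : n < 0) : coef I n = 0 := by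
  unfold coef
  rw [if_neg (by omega)]

lemma coef_nat (I : ℂ → ℂ) (n : ℕ) : coef I n = iteratedDeriv n I 0 / (n.factorial : ℂ) := by
  unfold coef
  simp

lemma cd {I : ℂ → ℂ} (h : DifferentiableOn ℂ I (Metric.ball 0 1)) (n : ℕ) : ContDiffAt ℂ n I 0 :=
  (h.analyticAt (Metric.ball_mem_nhds 0 one_pos)).contDiffAt

lemma coef_mul {I J : ℂ → ℂ} (hI : DifferentiableOn ℂ I (Metric.ball 0 1))
    (hJ : DifferentiableOn ℂ J (Metric.ball 0 1)) (n : ℕ) :
    coef (fun z => I z * J z) n = ∑ i ∈ Finset.range (n + 1), coef I ((n - i : ℕ) : ℤ) * coef J i := by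
  have e : (fun z => I z * J z) = J * I := by
    funext z
    simp [mul_comm]
  rw [coef_nat, e, iteratedDeriv_mul (cd hJ n) (cd hI n), Finset.sum_div]
  refine Finset.sum_congr rfl fun i hi => ?_
  have hi' : i ≤ n := by
    rw [Finset.mem_range] at hi
    omega
  rw [coef_nat, coef_nat]
  have h1 : (n.choose i : ℂ) * (i.factorial : ℂ) * ((n - i).factorial : ℂ) = (n.factorial : ℂ) := by
    exact_mod_cast Nat.choose_mul_factorial_mul_factorial hi'
  have h2 : (i.factorial : ℂ) ≠ 0 := by exact_mod_cast i.factorial_ne_zero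
  have h3 : ((n - i).factorial : ℂ) ≠ 0 := by exact_mod_cast (n - i).factorial_ne_zero
  have h4 : (n.factorial : ℂ) ≠ 0 := by exact_mod_cast n.factorial_ne_zero
  rw [div_mul_div_comm, div_eq_div_iff h4 (mul_ne_zero h3 h2), ← h1]
  ring

lemma iter_rot (I : ℂ → ℂ) (u : ℂ) (n : ℕ) :
    iteratedDeriv n (fun z => I (u * z)) = fun z => u ^ n * iteratedDeriv n I (u * z) := by
  induction n with
  | zero => simp
  | succ n ih =>
    rw [iteratedDeriv_succ, ih]
    funext z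
    rw [deriv_const_mul_field, deriv_comp_mul_left, iteratedDeriv_succ]
    simp only [smul_eq_mul]
    ring

lemma coef_rot (I : ℂ → ℂ) (u : ℂ) (n : ℤ) : coef (fun z => I (u * z)) n = u ^ n * coef I n := by
  rcases lt_or_ge n 0 with hn | hn
  · rw [coef_neg _ _ hn, coef_neg _ _ hn, mul_zero]
  · obtain ⟨k, rfl⟩ := Int.eq_ofNat_of_zero_le hn
    rw [coef_nat, coef_nat, iter_rot]
    simp only [mul_zero, zpow_natCast]
    ring

lemma fb_const (p : ℝ) (hp : 0 < p) : FB (coef (fun _ => 1)) p 1 := by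
  refine fb_one ?_ ?_ p hp
  · have := coef_nat (fun _ => 1) 0
    simpa using this
  · intro n hn
    rcases lt_or_ge n 0 with h | h
    · exact coef_neg _ _ h
    · obtain ⟨k, rfl⟩ := Int.eq_ofNat_of_zero_le h
      rw [coef_nat, iteratedDeriv_const]
      have hk : k ≠ 0 := by
        rintro rfl
        exact hn rfl
      rw [if_neg hk, zero_div]

/-! ### Multipliers with a prescribed zero-free factor -/

/-- `I = exp (-h) B`, `I` and `B` inner, `I` a multiplier for `4/3 ≤ p ≤ 4` -/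
structure Dv (h I B : ℂ → ℂ) : Prop where
  i : IsInner I
  b : IsInner B
  bb : ∀ z ∈ Metric.ball (0 : ℂ) 1, ‖B z‖ ≤ 1
  e : ∀ z ∈ Metric.ball (0 : ℂ) 1, I z = Complex.exp (-(h z)) * B z
  g : ∀ p : ℝ, 4 / 3 ≤ p → p ≤ 4 → ∃ K, 0 ≤ K ∧ FB (coef I) p K

lemma Dv.congr {h h' I B : ℂ → ℂ} (H : Dv h I B) (hh : ∀ z ∈ Metric.ball (0 : ℂ) 1, h z = h' z) : Dv h' I B :=
  ⟨H.i, H.b, H.bb, fun z hz => by rw [← hh z hz]; exact H.e z hz, H.g⟩

lemma dv_one : Dv (fun _ => 0) (fun _ => 1) (fun _ => 1) :=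
  ⟨inner_one, inner_one, fun z _ => by simp, fun z _ => by simp,
    fun p hp _ => ⟨1, zero_le_one, fb_const p (by linarith)⟩⟩

lemma Dv.mul {h I B h' I' B' : ℂ → ℂ} (H : Dv h I B) (H' : Dv h' I' B') :
    Dv (fun z => h z + h' z) (fun z => I z * I' z) (fun z => B z * B' z) := by
  refine ⟨inner_mul H.i H'.i, inner_mul H.b H'.b, fun z hz => ?_, fun z hz => ?_, fun p hp hp' => ?_⟩
  · rw [norm_mul]
    exact mul_le_one₀ (H.bb z hz) (norm_nonneg _) (H'.bb z hz)
  · rw [H.e z hz, H'.e z hz, neg_add, Complex.exp_add]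
    ring
  · obtain ⟨K, hK, h1⟩ := H.g p hp hp'
    obtain ⟨L, hL, h2⟩ := H'.g p hp hp'
    exact ⟨K * L, mul_nonneg hK hL, fb_mul hK hL h1 h2 (coef_neg _) (coef_neg _) (coef_neg _)
      (coef_mul H.i.1 H'.i.1)⟩

lemma Dv.rot {h I B : ℂ → ℂ} (H : Dv h I B) {u : ℂ} (hu : ‖u‖ = 1) :
    Dv (fun z => h (u * z)) (fun z => I (u * z)) (fun z => B (u * z)) := by
  refine ⟨inner_rot H.i hu, inner_rot H.b hu, fun z hz => H.bb _ (ball_rot hu z hz),
    fun z hz => H.e _ (ball_rot hu z hz), fun p hp hp' => ?_⟩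
  obtain ⟨K, hK, h1⟩ := H.g p hp hp'
  exact ⟨K, hK, fb_rot h1 u hu (coef_rot I u)⟩

lemma Dv.pow {h I B : ℂ → ℂ} (H : Dv h I B) (N : ℕ) : ∃ I' B', Dv (fun z => N * h z) I' B' := by
  induction N with
  | zero => exact ⟨_, _, dv_one.congr fun z _ => by simp⟩
  | succ N ih =>
    obtain ⟨I', B', H'⟩ := ih
    refine ⟨_, _, (H'.mul H).congr fun z _ => ?_⟩
    push_cast
    ring

lemma dv_base : ∃ I B, Dv (fun z => (1 + z) / (1 - z)) I B := by
  obtain ⟨G, B, K, hK, hG, hB, hG1, hB1, hGB, hGr, hBr, hbd⟩ := VG.main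
  refine ⟨G, B, ⟨hG, ⟨1, hG1⟩, hGr⟩, ⟨hB, ⟨1, hB1⟩, hBr⟩, hB1, hGB, fun p hp hp' => ⟨K, hK, ?_⟩⟩
  exact fb_all hK (fb4 hbd) p hp hp'

lemma dv_t {t : ℝ} (_ht : 0 ≤ t) : ∃ I B, Dv (fun z => (t : ℂ) * ((1 + z) / (1 - z))) I B := by
  obtain ⟨I, B, H⟩ := dv_base
  obtain ⟨I', B', H'⟩ := H.pow ⌈t⌉₊
  have hN : 0 ≤ (⌈t⌉₊ : ℝ) - t := sub_nonneg.2 (Nat.le_ceil t)
  refine ⟨I', fun z => Complex.exp (-((((⌈t⌉₊ : ℝ) - t : ℝ) : ℂ) * ((1 + z) / (1 - z)))) * B' z, H'.i,
    inner_mul (inner_exp1 hN) H'.b, fun z hz => ?_, fun z hz => ?_, H'.g⟩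
  · rw [norm_mul]
    exact mul_le_one₀ (norm_exp1_le hN hz) (norm_nonneg _) (H'.bb z hz)
  · rw [H'.e z hz, ← mul_assoc, ← Complex.exp_add]
    congr 2
    push_cast
    ring

lemma dv_single {ζ : ℂ} (hζ : ‖ζ‖ = 1) {t : ℝ} (ht : 0 ≤ t) :
    ∃ I B, Dv (fun z => (t : ℂ) * ((ζ + z) / (ζ - z))) I B := by
  obtain ⟨I, B, H⟩ := dv_t ht
  have hu : ‖(starRingEnd ℂ) ζ‖ = 1 := by rw [Complex.norm_conj, hζ]
  refine ⟨_, _, (H.rot hu).congr fun z hz => ?_⟩
  have h1 : ζ * (starRingEnd ℂ) ζ = 1 := by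
    rw [Complex.mul_conj, Complex.normSq_eq_norm_sq, hζ]
    simp
  have hζ0 : ζ ≠ 0 := by
    rintro rfl
    simp at hζ
  congr 1
  rw [← mul_div_mul_left (1 + (starRingEnd ℂ) ζ * z) (1 - (starRingEnd ℂ) ζ * z) hζ0]
  congr 1
  · linear_combination z * h1
  · linear_combination -z * h1

lemma dv_sum {N : ℕ} (ζ : Fin N → ℂ) (t : Fin N → ℝ) (hζ : ∀ j, ‖ζ j‖ = 1) (ht : ∀ j, 0 ≤ t j)
    (S : Finset (Fin N)) : ∃ I B, Dv (fun z => ∑ j ∈ S, (t j : ℂ) * ((ζ j + z) / (ζ j - z))) I B := by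
  classical
  induction S using Finset.induction_on with
  | empty => exact ⟨_, _, dv_one.congr fun z _ => by simp⟩
  | insert j S hj ih =>
    obtain ⟨I, B, H⟩ := ih
    obtain ⟨I', B', H'⟩ := dv_single (hζ j) (ht j)
    exact ⟨_, _, (H'.mul H).congr fun z _ => by rw [Finset.sum_insert hj]⟩

/-- Every singular inner function `exp (-∑ t_j (ζ_j + z)/(ζ_j - z))` whose measure is a finite sum of point masses
(at any points `ζ_j` of the circle, with any masses `t_j ≥ 0`) divides an inner function `I` which is a Fourier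
multiplier of `ℓ^p` for all `4/3 ≤ p ≤ 4` at once; if some mass is positive then `I` is not a Blaschke product. -/
theorem result (N : ℕ) (ζ : Fin N → ℂ) (t : Fin N → ℝ) (hζ : ∀ j, ‖ζ j‖ = 1) (ht : ∀ j, 0 ≤ t j) :
    ∃ I B : ℂ → ℂ, IsInner I ∧ IsInner B ∧
      (∀ z ∈ Metric.ball (0 : ℂ) 1,
        I z = Complex.exp (-∑ j, (t j : ℂ) * ((ζ j + z) / (ζ j - z))) * B z) ∧
      (∀ p : ENNReal, 4 / 3 ≤ p → p ≤ 4 → MemMpA p I) ∧ ((∃ j, 0 < t j) → ¬ IsBlaschkeProduct I) := by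
  obtain ⟨I, B, H⟩ := dv_sum ζ t hζ ht Finset.univ
  refine ⟨I, B, H.i, H.b, H.e, fun p hp hp' => ?_, fun hpos => ?_⟩
  · have htop : p ≠ ⊤ := ne_top_of_le_ne_top (by norm_num) hp'
    have e : p = ENNReal.ofReal p.toReal := (ENNReal.ofReal_toReal htop).symm
    have h1 : (4 / 3 : ℝ) ≤ p.toReal := by
      have := ENNReal.toReal_mono htop hp
      rwa [ENNReal.toReal_div, ENNReal.toReal_ofNat, ENNReal.toReal_ofNat] at this
    have h2 : p.toReal ≤ 4 := by
      have := ENNReal.toReal_mono (by norm_num) hp'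
      rwa [ENNReal.toReal_ofNat] at this
    obtain ⟨K, hK, h3⟩ := H.g p.toReal h1 h2
    rw [e]
    exact mem_of_fb (by linarith) hK h3
  · have hne : ∀ j, ∀ z ∈ Metric.ball (0 : ℂ) 1, ζ j - z ≠ 0 := by
      intro j z hz h0
      have : ζ j = z := sub_eq_zero.1 h0
      rw [← this, mem_ball_zero_iff, hζ j] at hz
      exact lt_irrefl _ hz
    have hre : ∀ j, ∀ z ∈ Metric.ball (0 : ℂ) 1, 0 < ((ζ j + z) / (ζ j - z)).re := by
      intro j z hz
      have hu : ‖(starRingEnd ℂ) (ζ j)‖ = 1 := by rw [Complex.norm_conj, hζ]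
      have h1 : ζ j * (starRingEnd ℂ) (ζ j) = 1 := by
        rw [Complex.mul_conj, Complex.normSq_eq_norm_sq, hζ]
        simp
      have hζ0 : ζ j ≠ 0 := by
        intro h
        have := hζ j
        rw [h, norm_zero] at this
        exact zero_ne_one this
      have h2 : (ζ j + z) / (ζ j - z) = (1 + (starRingEnd ℂ) (ζ j) * z) / (1 - (starRingEnd ℂ) (ζ j) * z) := by
        rw [← mul_div_mul_left (1 + (starRingEnd ℂ) (ζ j) * z) (1 - (starRingEnd ℂ) (ζ j) * z) hζ0]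
        congr 1
        · linear_combination -z * h1
        · linear_combination z * h1
      rw [h2]
      exact J1639.re_pos (mem_ball_zero_iff.1 (ball_rot hu z hz))
    refine not_blaschke' (fun z => ∑ j, (t j : ℂ) * ((ζ j + z) / (ζ j - z))) ?_ ?_ I B H.bb H.e ?_
    · refine DifferentiableOn.fun_sum fun j _ => ?_
      refine DifferentiableOn.const_mul ?_ _
      exact DifferentiableOn.div (by fun_prop) (by fun_prop) (hne j)
    · intro z hz
      obtain ⟨j, hj⟩ := hpos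
      rw [Complex.re_sum]
      refine Finset.sum_pos' (fun i _ => ?_) ⟨j, Finset.mem_univ _, ?_⟩
      · rw [Complex.re_ofReal_mul]
        exact mul_nonneg (ht i) (hre i z hz).le
      · rw [Complex.re_ofReal_mul]
        exact mul_pos hj (hre j z hz)
    · by_contra hcon
      push Not at hcon
      have hfalse : ∀ᵐ θ : ℝ ∂volume, False := by
        filter_upwards [H.b.2.2] with θ hθ
        obtain ⟨w, hw, hlim⟩ := hθ
        have h0 : Tendsto (fun r : ℝ => B ((r : ℂ) * Complex.exp ((θ : ℂ) * Complex.I))) (𝓝[<] 1) (𝓝 0) := by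
          refine tendsto_const_nhds.congr' ?_
          have h15 : ∀ᶠ r : ℝ in nhdsWithin (1 : ℝ) (Set.Iio 1), (0 : ℝ) < r :=
            mem_nhdsWithin_of_mem_nhds (lt_mem_nhds one_pos)
          filter_upwards [h15, self_mem_nhdsWithin] with r hr1 hr2
          refine (hcon _ ?_).symm
          rw [mem_ball_zero_iff, norm_mul, Complex.norm_real, Real.norm_of_nonneg hr1.le,
            Complex.norm_exp_ofReal_mul_I, mul_one]
          exact hr2
        have h1 := tendsto_nhds_unique hlim h0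
        rw [h1, norm_zero] at hw
        exact zero_ne_one hw
      rw [ae_iff] at hfalse
      simp at hfalse

/-- In particular, for every exponent `4/3 ≤ p ≤ 4` Vinogradov's question has a negative answer. -/
theorem vinogradov_negative (p : ENNReal) (hp : 4 / 3 ≤ p) (hp' : p ≤ 4) :
    ¬ ∀ I : ℂ → ℂ, IsInner I → MemMpA p I → IsBlaschkeProduct I := by
  intro hall
  obtain ⟨I, B, hI, -, -, hM, hn⟩ := result 1 (fun _ => 1) (fun _ => 1) (by simp) (by simp)
  exact hn ⟨0, by simp⟩ (hall I hI (hM p hp hp'))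

end Pool.Agent.Results.MP_dea278_an.FiniteAtoms
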